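import Mathlib
import Pool.Graph.R_pool_sql_team_seeded_b3bd081e.Results.MP_7cf704_co.ManyCliques

/-! # MP_7a760c_co, Q1: many disjoint cliques in `G`, while any `m` cliques of the complement meet

The graph is the blow-up of the graph `H m` of the earlier result on MP_7cf704_co: `m + 1` complete
graphs on the vertices `(a, i)`, `i = 0, ..., m`, every `(a, i)` replaced by `b (m + 1) ^ m` pairwise
nonadjacent copies, and `b` copies of each function `o`, joined to the copies of `(a, o a)`. -/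

set_option autoImplicit false

namespace Pool.Agent.Results.MP_7a760c_co.ManyDisjointCliques

open Pool.Agent.Results.MP_7cf704_co.ManyCliques

/-- the blow-up -/
def Bl (m b : ℕ) : SimpleGraph (Vtx m × Fin b) where
  Adj u v := (H m).Adj u.1 v.1
  symm := ⟨fun _ _ h => SimpleGraph.Adj.symm h⟩
  loopless := ⟨fun _ h => SimpleGraph.Adj.ne h rfl⟩

instance (m b : ℕ) : DecidableRel (Bl m b).Adj :=
  fun u v => inferInstanceAs (Decidable ((H m).Adj u.1 v.1))

theorem regular_bl (m b : ℕ) : (Bl m b).IsRegularOfDegree (b * (m + 1) ^ (m + 1)) := by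
  rintro ⟨u, i⟩
  have h : (Bl m b).neighborFinset (u, i) = (H m).neighborFinset u ×ˢ Finset.univ := by
    ext ⟨v, j⟩
    rw [SimpleGraph.mem_neighborFinset, Finset.mem_product, SimpleGraph.mem_neighborFinset]
    exact ⟨fun h => ⟨h, Finset.mem_univ _⟩, fun h => h.1⟩
  rw [← SimpleGraph.card_neighborFinset_eq_degree, h, Finset.card_product,
    SimpleGraph.card_neighborFinset_eq_degree, regular m u, Finset.card_univ, Fintype.card_fin,
    mul_comm]

/-- the cliques over `a` -/
def Cl (m b : ℕ) (x : Fin (m + 1) × (Fin m → Fin (m + 1)) × Fin b) : Set (Vtx m × Fin b) :=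
  {v | ∃ i : Fin (m + 1), v = (Sum.inl (x.1, i, x.2.1), x.2.2)}

theorem maximal_cl (m b : ℕ) (hm : 1 ≤ m) (x : Fin (m + 1) × (Fin m → Fin (m + 1)) × Fin b) :
    Maximal (Bl m b).IsClique (Cl m b x) := by
  have h01 : (⟨0, by omega⟩ : Fin (m + 1)) ≠ ⟨1, by omega⟩ := by
    simp [Fin.ext_iff]
  refine ⟨?_, ?_⟩
  · rintro _ ⟨i, rfl⟩ _ ⟨j, rfl⟩ hne
    refine ⟨rfl, fun h => hne ?_⟩
    have h' : i = j := h
    rw [h']
  · intro t ht hsub v hv
    have key : ∀ i : Fin (m + 1), v ≠ (Sum.inl (x.1, i, x.2.1), x.2.2) →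
        (H m).Adj v.1 (Sum.inl (x.1, i, x.2.1)) := fun i hne => ht hv (hsub ⟨i, rfl⟩) hne
    by_contra hcon
    have hne : ∀ i : Fin (m + 1), v ≠ (Sum.inl (x.1, i, x.2.1), x.2.2) := fun i h => hcon ⟨i, h⟩
    obtain ⟨v, l⟩ := v
    rcases v with ⟨a, j, c⟩ | o
    · exact (key j (hne j)).2 rfl
    · have e0 : o x.1 = ⟨0, by omega⟩ := key ⟨0, by omega⟩ (hne _)
      have e1 : o x.1 = ⟨1, by omega⟩ := key ⟨1, by omega⟩ (hne _)
      exact h01 (e0.symm.trans e1)

theorem disjoint_cl (m b : ℕ) (x y : Fin (m + 1) × (Fin m → Fin (m + 1)) × Fin b) (h : x ≠ y) :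
    Disjoint (Cl m b x) (Cl m b y) := by
  rw [Set.disjoint_left]
  rintro _ ⟨i, rfl⟩ ⟨j, h2⟩
  apply h
  simp only [Prod.mk.injEq, Sum.inl.injEq] at h2
  exact Prod.ext h2.1.1 (Prod.ext h2.1.2.2 h2.2)

/-- an independent set uses at most one value over every `a` -/
theorem value_bl (m b : ℕ) (s : Set (Vtx m × Fin b)) (hs : (Bl m b)ᶜ.IsClique s) (a : Fin (m + 1)) :
    ∃ i : Fin (m + 1), ∀ j c l, ((Sum.inl (a, j, c), l) : Vtx m × Fin b) ∈ s → j = i := by
  by_cases h : ∃ i c l, ((Sum.inl (a, i, c), l) : Vtx m × Fin b) ∈ s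
  · obtain ⟨i, c, l, hi⟩ := h
    refine ⟨i, fun j d l' hj => ?_⟩
    by_contra hne
    have hne' : ((Sum.inl (a, j, d), l') : Vtx m × Fin b) ≠ (Sum.inl (a, i, c), l) := by
      intro h
      apply hne
      simp only [Prod.mk.injEq, Sum.inl.injEq, true_and] at h
      exact h.1.1
    have := hs hj hi hne'
    rw [SimpleGraph.compl_adj] at this
    exact this.2 ⟨rfl, hne⟩
  · exact ⟨0, fun j c l hj => absurd ⟨j, c, l, hj⟩ h⟩

theorem mem_of_avoid_bl (m b : ℕ) (s : Set (Vtx m × Fin b)) (hs : Maximal (Bl m b)ᶜ.IsClique s)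
    (p : Fin (m + 1) → Fin (m + 1))
    (hp : ∀ a j c l, ((Sum.inl (a, j, c), l) : Vtx m × Fin b) ∈ s → j = p a)
    (o : Fin (m + 1) → Fin (m + 1)) (ho : ∀ a, o a ≠ p a) (l : Fin b) :
    ((Sum.inr o, l) : Vtx m × Fin b) ∈ s := by
  have h1 : (Bl m b)ᶜ.IsClique (insert ((Sum.inr o, l) : Vtx m × Fin b) s) := by
    refine hs.prop.insert ?_
    intro v hv hne
    rw [SimpleGraph.compl_adj]
    refine ⟨hne, ?_⟩
    obtain ⟨v, l'⟩ := v
    rcases v with ⟨a, j, c⟩ | o'
    · have := hp a j c l' hv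
      intro h
      apply ho a
      rw [← this]
      exact h
    · intro h
      exact h
  exact hs.le_of_ge h1 (Set.subset_insert _ _) (Set.mem_insert _ _)

/-- For all `m ≥ 1` and `b ≥ 1` there is a regular graph `G` of degree `d = b (m + 1) ^ (m + 1) > 0`
on `(m + 2) d` vertices which has `d` pairwise disjoint maximal cliques, while any `m` maximal
cliques of its complement (maximal independent sets of `G`) have a common vertex. -/
theorem result (m b : ℕ) (hm : 1 ≤ m) (hb : 1 ≤ b) :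
    ∃ (V : Type) (_ : Fintype V) (_ : DecidableEq V) (G : SimpleGraph V) (_ : DecidableRel G.Adj)
      (d : ℕ), d = b * (m + 1) ^ (m + 1) ∧ Fintype.card V = (m + 2) * d ∧
      G.IsRegularOfDegree d ∧ G ≠ ⊥ ∧
      (∃ C : Fin d → Set V, (∀ i, Maximal G.IsClique (C i)) ∧
        ∀ i j, i ≠ j → Disjoint (C i) (C j)) ∧
      ∀ I : Fin m → Set V, (∀ j, Maximal Gᶜ.IsClique (I j)) → (⋂ j, I j).Nonempty := by
  have hreg := regular_bl m b
  refine ⟨Vtx m × Fin b, inferInstance, inferInstance, Bl m b, inferInstance, _, rfl, ?_, hreg,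
    ?_, ?_, ?_⟩
  · simp only [Fintype.card_prod, Fintype.card_sum, Fintype.card_fin, Fintype.card_fun]
    ring
  · intro h
    have h1 : (Bl m b).Adj (Sum.inl (0, 0, 0), ⟨0, hb⟩) (Sum.inr 0, ⟨0, hb⟩) := rfl
    rw [h] at h1
    exact h1
  · have hcard : Fintype.card (Fin (m + 1) × (Fin m → Fin (m + 1)) × Fin b) =
        b * (m + 1) ^ (m + 1) := by
      simp only [Fintype.card_prod, Fintype.card_fin, Fintype.card_fun]
      ring
    let e := Fintype.equivFinOfCardEq hcard
    refine ⟨fun i => Cl m b (e.symm i), fun i => maximal_cl m b hm _, fun i j hij => ?_⟩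
    exact disjoint_cl m b _ _ fun h => hij (e.symm.injective h)
  · intro C hC
    choose p hp using fun j => value_bl m b (C j) (hC j).prop
    have hk : ∀ a, ∃ k : Fin (m + 1), ∀ j, p j a ≠ k := by
      intro a
      by_contra hcon
      push Not at hcon
      have := Fintype.card_le_of_surjective (fun j => p j a) (fun k => hcon k)
      simp at this
    choose k hk using hk
    refine ⟨(Sum.inr k, ⟨0, hb⟩), Set.mem_iInter.2 fun j => ?_⟩
    exact mem_of_avoid_bl m b (C j) (hC j) (p j) (hp j) k (fun a => (hk a j).symm) _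

end Pool.Agent.Results.MP_7a760c_co.ManyDisjointCliques
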